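import Pool.Agent.Helper73.RFn.GoalsI

/-!
# Packet RFn-HEC: the heat equation at the function level
-/

set_option autoImplicit false

open Finset Pool.Agent.Helper47.RFn Pool.Agent.Helper73.RFn

namespace Pool.Agent.Helper87.RFn.HEC

theorem one_mem (n : ℕ) : (one : Ix n → Ix n → ℝ) ∈ OO n := by
  intro a b
  simp [one]

theorem abs_le_one {n : ℕ} {w : Ix n → Ix n → ℝ} (hw : w ∈ OO n) (a b : Ix n) : |w a b| ≤ 1 := by
  have h := hw a a
  rw [if_pos rfl] at h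
  have h1 : w a b * w a b ≤ 1 := by
    rw [← h]
    exact Finset.single_le_sum (f := fun c => w a c * w a c) (fun c _ => mul_self_nonneg _)
      (Finset.mem_univ b)
  apply abs_le_of_sq_le_sq _ zero_le_one
  rw [one_pow, pow_two]
  exact h1

theorem sum4_le {n : ℕ} {w : Ix n → Ix n → ℝ} (hw : w ∈ OO n)
    (R : Ix n → Ix n → Ix n → Ix n → ℝ) (K : ℝ) (hR : ∀ i j k l, |R i j k l| ≤ K) (a b c d : Ix n) :
    |∑ i, ∑ j, ∑ k, ∑ l, w a i * w b j * w c k * w d l * R i j k l| ≤ ((n : ℝ) + 1) ^ 4 * K := by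
  have hterm : ∀ i j k l, |w a i * w b j * w c k * w d l * R i j k l| ≤ K := by
    intro i j k l
    have h1 := abs_le_one hw a i
    have h2 := abs_le_one hw b j
    have h3 := abs_le_one hw c k
    have h4 := abs_le_one hw d l
    have h5 := hR i j k l
    rw [abs_mul, abs_mul, abs_mul, abs_mul]
    have h12 : |w a i| * |w b j| ≤ 1 := mul_le_one₀ h1 (abs_nonneg _) h2
    have h123 : |w a i| * |w b j| * |w c k| ≤ 1 := mul_le_one₀ h12 (abs_nonneg _) h3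
    have h1234 : |w a i| * |w b j| * |w c k| * |w d l| ≤ 1 := mul_le_one₀ h123 (abs_nonneg _) h4
    calc |w a i| * |w b j| * |w c k| * |w d l| * |R i j k l| ≤ 1 * |R i j k l| :=
          mul_le_mul_of_nonneg_right h1234 (abs_nonneg _)
      _ = |R i j k l| := one_mul _
      _ ≤ K := h5
  have hs : ∀ (f : Ix n → ℝ) (M : ℝ), (∀ i, |f i| ≤ M) → |∑ i, f i| ≤ ((n : ℝ) + 1) * M := by
    intro f M hf
    calc |∑ i, f i| ≤ ∑ i, |f i| := Finset.abs_sum_le_sum_abs _ _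
      _ ≤ ∑ _i : Ix n, M := Finset.sum_le_sum fun i _ => hf i
      _ = ((n : ℝ) + 1) * M := by
        rw [Finset.sum_const, Finset.card_univ, Fintype.card_fin, nsmul_eq_mul]
        push_cast
        ring
  have h4 : |∑ i, ∑ j, ∑ k, ∑ l, w a i * w b j * w c k * w d l * R i j k l| ≤
      ((n : ℝ) + 1) * (((n : ℝ) + 1) * (((n : ℝ) + 1) * (((n : ℝ) + 1) * K))) :=
    hs _ _ fun i => hs _ _ fun j => hs _ _ fun k => hs _ _ fun l => hterm i j k l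
  refine h4.trans (le_of_eq ?_)
  ring

theorem hecP : HecPStmt := by
  intro hMOD hEM hFLB hNRO hHEA hFJS hHJS hFHM n C A0 hn hC hA0
  have hn1 : (0 : ℝ) < (n : ℝ) + 1 := by positivity
  obtain ⟨Bc, hBc, hHEA'⟩ := hHEA n hn (((n : ℝ) + 1) ^ 4 * C) A0 (by positivity) hA0
  refine ⟨Bc, hBc, ?_⟩
  intro T l0 A θ u hT hl0 hF hcur hH hini
  have hsub : Set.Ioo 0 T ⊆ Set.Ico 0 T := fun t ht => ⟨ht.1.le, ht.2⟩
  obtain ⟨M, hM⟩ := hMOD n T hT
  obtain ⟨jA, jt, -⟩ := hFJS n T (Set.Ico 0 T) A θ hT hsub hF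
  have mA : MJ T A := fun i j => ⟨(jA i j).cd, (jA i j).hom⟩
  have mt : MJ T θ := fun i j => ⟨(jt i j).cd, (jt i j).hom⟩
  have ju' := hHJS n T A θ u hT hF hH
  have ju : Pool.Agent.Helper47.RFn.JS T u := ⟨ju'.cd, ju'.hom⟩
  obtain ⟨-, hfull, hrf, hd, hR, -, hl⟩ := hFLB n T hT M hM (Set.Ico 0 T) A θ hsub hF mA mt
  obtain ⟨-, -, -, -, -, hN⟩ := hNRO n T hT M hM A θ hF mA mt
  obtain ⟨-, hBd, -, hIniG, -⟩ := hN u ju hH.fam
  obtain ⟨-, -, -, em4, -, -⟩ := hEM n T hT M hM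
  obtain ⟨hVI, hev⟩ := hl u u ju ju
  have hpt : ∀ z, M.pt z ≠ 0 := by
    intro z hz
    have := hM.ptn z
    rw [hz, norm_zero] at this
    exact zero_ne_one this
  have hcone : (M.flB A θ).Cone (((n : ℝ) + 1) ^ 4 * C) l0 := by
    intro z t
    obtain ⟨e1, -, -⟩ := hd z t
    obtain ⟨c1, c2, -⟩ := hcur t t.2.1 t.2.2 (M.pt z) (hpt z)
    rw [e1]
    refine ⟨c1, fun a b c d => ?_⟩
    rw [hR z t a b c d, mul_assoc]
    exact sum4_le (hM.frO z) (fun i j k l => Rf (A t) (θ t) i j k l (M.pt z)) _ c2 a b c d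
  have htl : ∀ (z : (M.flB A θ).Z) (t : TI T), t * (M.flB A θ).ev z t (M.flB A θ).lam ≤ A0 := by
    intro z t
    obtain ⟨e1, -, -⟩ := hd z t
    obtain ⟨-, -, c3⟩ := hcur t t.2.1 t.2.2 (M.pt z) (hpt z)
    rw [e1]
    exact c3
  have hDu : (M.flB A θ).D (M.em u) = (M.flB A θ).Lap (M.em u) := by
    refine hfull.ext _ _ fun z t => ?_
    rw [(hev z t).2]
    refine em4 u (fun t => Lapf (A t) (θ t) (u t)) ju ?_ z t
    intro t x ht1 ht2 hx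
    have := hH.der [] x hx t ⟨ht1.le, ht2⟩
    exact this.hasDerivAt (Ico_mem_nhds ht1 ht2)
  have hfin := hHEA' T (M.flB A θ) hfull hrf l0 hl0 hcone htl (M.em u) hVI hDu
    (hIniG 1 hini) hBd
  intro t ht1 ht2 x hx
  have hfrm := (hFHM n).2 (Set.Ico 0 T) A θ hF
  have hFt : Frm (A t) (θ t) := hfrm.1 t ⟨ht1.le, ht2⟩
  obtain ⟨-, -, -, -, -, -, -, -, -, hLs, hgs, -⟩ := (hFHM n).1 (A t) (θ t) hFt
  have hus : Sm (u t) := hH.fam.sm t ⟨ht1.le, ht2⟩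
  have hg : Hom0 (ggf (A t) (u t) (u t)) := (hgs (u t) (u t) hus hus).1.hom
  have hL : Hom0 (Lapf (A t) (θ t) (u t)) := (hLs (u t) hus).1.hom
  have hn0 : 0 < ‖x‖ := norm_pos_iff.2 hx
  have hy : ‖(‖x‖⁻¹ • x : EE n)‖ = 1 := by
    rw [norm_smul, norm_inv, norm_norm, inv_mul_cancel₀ hn0.ne']
  obtain ⟨z, hz, -⟩ := hM.surj (‖x‖⁻¹ • x) one hy (one_mem n)
  have hz' := hfin z ⟨t, ht1, ht2⟩
  rw [(hev z ⟨t, ht1, ht2⟩).1, (hev z ⟨t, ht1, ht2⟩).2, hz] at hz'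
  simp only at hz'
  rw [hg ‖x‖⁻¹ x (inv_pos.2 hn0), hL ‖x‖⁻¹ x (inv_pos.2 hn0)] at hz'
  exact hz'

end Pool.Agent.Helper87.RFn.HEC
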