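import Pool.Agent.Helper47.RFn.Mod

/-!
# Packet RFn-MA2
-/

namespace Pool.Agent.Helper47.RFn

open Finset Filter Topology

theorem ma2_fld_contDiff {n : ℕ} (η ζ ξ : Ix n → Ix n → ℝ) (d : ℝ) :
    ContDiff ℝ oo (fld η ζ ξ d : WW n → WW n) := by
  unfold fld
  refine ContDiff.prodMk ?_ (ContDiff.prodMk ?_ contDiff_const)
  · rw [contDiff_euclidean]
    intro i
    show ContDiff ℝ oo (fun x : WW n => ∑ j, η i j * x.1 j)
    refine ContDiff.sum fun j _ => contDiff_const.mul ?_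
    exact (contDiff_euclidean.mp (contDiff_fst : ContDiff ℝ oo (fun x : WW n => x.1))) j
  · rw [contDiff_pi]
    intro a
    rw [contDiff_pi]
    intro b
    refine ContDiff.sum fun c _ => ?_
    have h (a b : Ix n) : ContDiff ℝ oo (fun x : WW n => x.2.1 a b) := by
      have h1 : ContDiff ℝ oo (fun x : WW n => x.2.1) := contDiff_fst.comp contDiff_snd
      exact (contDiff_pi.mp ((contDiff_pi.mp h1) a)) b
    exact (contDiff_const.mul (h c b)).add ((h a c).mul contDiff_const)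

theorem ma2_fld_lin {n : ℕ} (η ζ ξ η' ζ' ξ' : Ix n → Ix n → ℝ) (d d' c : ℝ) (p : WW n) :
    fld (fun a b => η a b + c * η' a b) (fun a b => ζ a b + c * ζ' a b)
      (fun a b => ξ a b + c * ξ' a b) (d + c * d') p = fld η ζ ξ d p + c • fld η' ζ' ξ' d' p := by
  unfold fld
  refine Prod.ext ?_ (Prod.ext ?_ ?_)
  · ext i
    show ∑ j, (η i j + c * η' i j) * p.1 j = ∑ j, η i j * p.1 j + c * ∑ j, η' i j * p.1 j
    rw [Finset.mul_sum, ← Finset.sum_add_distrib]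
    exact Finset.sum_congr rfl fun j _ => by ring
  · funext a b
    show ∑ k, ((ζ a k + c * ζ' a k) * p.2.1 k b + p.2.1 a k * (ξ k b + c * ξ' k b)) =
      ∑ k, (ζ a k * p.2.1 k b + p.2.1 a k * ξ k b) +
        c * ∑ k, (ζ' a k * p.2.1 k b + p.2.1 a k * ξ' k b)
    rw [Finset.mul_sum, ← Finset.sum_add_distrib]
    exact Finset.sum_congr rfl fun j _ => by ring
  · rfl

theorem ma2_diffAt {n : ℕ} {T : ℝ} {O : Set (WW n)} {F : WW n → ℝ} {f : ZZ n × TI T → ℝ}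
    (h : Ex O F f) (p : ZZ n × TI T) : DifferentiableAt ℝ F (emW p) :=
  ((h.cd.contDiffAt (h.op.mem_nhds (h.mem p))).differentiableAt (by simp))

theorem ma2_indep (hMA1 : Goal_MA1) {n : ℕ} {T : ℝ} {η ζ ξ : Ix n → Ix n → ℝ} {d : ℝ}
    (hη : Sk η) (hζ : Sk ζ) (hξ : Sk ξ) {f : ZZ n × TI T → ℝ} {O O' : Set (WW n)}
    {F F' : WW n → ℝ} (h : Ex O F f) (h' : Ex O' F' f) (p : ZZ n × TI T) :
    fderiv ℝ F (emW p) (fld η ζ ξ d (emW p)) = fderiv ℝ F' (emW p) (fld η ζ ξ d (emW p)) := by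
  obtain ⟨z, t⟩ := p
  obtain ⟨γ, hγ0, hγ⟩ := (hMA1 n).2 η ζ ξ z hη hζ hξ
  let c : ℝ → WW n := fun s => (((γ s).1 : EE n), ((γ s).2 : Ix n → Ix n → ℝ), (t : ℝ) + d * s)
  have hc0 : c 0 = emW (z, t) := by
    simp only [c, emW, hγ0, mul_zero, add_zero]
  have hcd : HasDerivAt c (fld η ζ ξ d (emW (z, t))) 0 := by
    have h1 := hγ 0
    have h2 : HasDerivAt (fun r => ((γ r).1 : EE n))
        (fld η ζ ξ 0 ((γ 0).1, (γ 0).2, 0)).1 0 := h1.fst
    have h3 : HasDerivAt (fun r => ((γ r).2 : Ix n → Ix n → ℝ))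
        (fld η ζ ξ 0 ((γ 0).1, (γ 0).2, 0)).2.1 0 := h1.snd
    have h4 : HasDerivAt (fun s : ℝ => (t : ℝ) + d * s) d 0 := by
      have := ((hasDerivAt_id (0 : ℝ)).const_mul d).const_add (t : ℝ)
      simpa using this
    have h5 := h2.prodMk (h3.prodMk h4)
    rw [hγ0] at h5
    exact h5
  have hF : HasDerivAt (fun s => F (c s)) (fderiv ℝ F (emW (z, t)) (fld η ζ ξ d (emW (z, t)))) 0 := by
    have h1 := (ma2_diffAt h (z, t)).hasFDerivAt
    rw [← hc0] at h1 hcd ⊢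
    exact h1.comp_hasDerivAt 0 hcd
  have hF' : HasDerivAt (fun s => F' (c s))
      (fderiv ℝ F' (emW (z, t)) (fld η ζ ξ d (emW (z, t)))) 0 := by
    have h1 := (ma2_diffAt h' (z, t)).hasFDerivAt
    rw [← hc0] at h1 hcd ⊢
    exact h1.comp_hasDerivAt 0 hcd
  have hev : (fun s => F (c s)) =ᶠ[𝓝 0] (fun s => F' (c s)) := by
    have hcont : ContinuousAt (fun s : ℝ => (t : ℝ) + d * s) 0 := by fun_prop
    have hmem : ∀ᶠ s : ℝ in 𝓝 0, (t : ℝ) + d * s ∈ Set.Ioo (0 : ℝ) T := by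
      apply hcont
      refine Ioo_mem_nhds ?_ ?_
      · simpa using t.2.1
      · simpa using t.2.2
    filter_upwards [hmem] with s hs
    have hcs : c s = emW (γ s, (⟨(t : ℝ) + d * s, hs⟩ : TI T)) := rfl
    rw [hcs, h.eq, h'.eq]
  exact hF.unique (hF'.congr_of_eventuallyEq hev)

theorem ma2_exf {n : ℕ} {T : ℝ} {f : ZZ n × TI T → ℝ} (h : IsB f) : ∃ O, Ex O (exf f) f := by
  obtain ⟨O, F, hF⟩ := h
  have hex : ∃ F, ∃ O, Ex O F f := ⟨F, O, hF⟩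
  unfold exf
  rw [dif_pos hex]
  exact Classical.choose_spec hex

theorem ma2_derf (hMA1 : Goal_MA1) {n : ℕ} {T : ℝ} {η ζ ξ : Ix n → Ix n → ℝ} {d : ℝ}
    (hη : Sk η) (hζ : Sk ζ) (hξ : Sk ξ) {f : ZZ n × TI T → ℝ} {O : Set (WW n)}
    {F : WW n → ℝ} (h : Ex O F f) (p : ZZ n × TI T) :
    derf η ζ ξ d f p = fderiv ℝ F (emW p) (fld η ζ ξ d (emW p)) := by
  obtain ⟨O', h'⟩ := ma2_exf ⟨O, F, h⟩
  exact ma2_indep hMA1 hη hζ hξ h' h p

theorem ma2_const {n : ℕ} {T : ℝ} (c : ℝ) :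
    Ex (Set.univ : Set (WW n)) (fun _ => c) (fun _ : ZZ n × TI T => c) where
  op := isOpen_univ
  cd := contDiffOn_const
  mem := fun _ => Set.mem_univ _
  eq := fun _ => rfl

theorem ma2_add {n : ℕ} {T : ℝ} {f g : ZZ n × TI T → ℝ} {O O' : Set (WW n)} {F G : WW n → ℝ}
    (h : Ex O F f) (h' : Ex O' G g) : Ex (O ∩ O') (F + G) (f + g) where
  op := h.op.inter h'.op
  cd := (h.cd.mono Set.inter_subset_left).add (h'.cd.mono Set.inter_subset_right)
  mem := fun p => ⟨h.mem p, h'.mem p⟩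
  eq := fun p => by
    show F (emW p) + G (emW p) = f p + g p
    rw [h.eq, h'.eq]

theorem ma2_mul {n : ℕ} {T : ℝ} {f g : ZZ n × TI T → ℝ} {O O' : Set (WW n)} {F G : WW n → ℝ}
    (h : Ex O F f) (h' : Ex O' G g) : Ex (O ∩ O') (F * G) (f * g) where
  op := h.op.inter h'.op
  cd := (h.cd.mono Set.inter_subset_left).mul (h'.cd.mono Set.inter_subset_right)
  mem := fun p => ⟨h.mem p, h'.mem p⟩
  eq := fun p => by
    show F (emW p) * G (emW p) = f p * g p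
    rw [h.eq, h'.eq]

theorem ma2_smul {n : ℕ} {T : ℝ} (c : ℝ) {f : ZZ n × TI T → ℝ} {O : Set (WW n)} {F : WW n → ℝ}
    (h : Ex O F f) : Ex O (c • F) (c • f) where
  op := h.op
  cd := h.cd.const_smul c
  mem := h.mem
  eq := fun p => by
    show c • F (emW p) = c • f p
    rw [h.eq]

theorem ma2_comp {n : ℕ} {T : ℝ} {φ : ℝ → ℝ} {U : Set ℝ} (hU : IsOpen U)
    (hφ : ContDiffOn ℝ oo φ U) {f : ZZ n × TI T → ℝ} {O : Set (WW n)} {F : WW n → ℝ}
    (h : Ex O F f) (hf : ∀ p, f p ∈ U) : Ex (O ∩ F ⁻¹' U) (fun q => φ (F q)) (fun p => φ (f p)) where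
  op := h.cd.continuousOn.isOpen_inter_preimage h.op hU
  cd := hφ.comp (h.cd.mono Set.inter_subset_left) fun _ hx => hx.2
  mem := fun p => ⟨h.mem p, by
    show F (emW p) ∈ U
    rw [h.eq]; exact hf p⟩
  eq := fun p => by
    show φ (F (emW p)) = φ (f p)
    rw [h.eq]

theorem goal_MA2 (hMA1 : Goal_MA1) : Goal_MA2 := by
  intro n T
  refine ⟨?_, ?_, ?_, ?_, ?_, ?_⟩
  · intro η ζ ξ d hη hζ hξ f O F h
    refine ⟨ma2_derf hMA1 hη hζ hξ h, ⟨h.op, ?_, h.mem, ?_⟩⟩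
    · have h1 : ContDiffOn ℝ oo (fderiv ℝ F) O := h.cd.fderiv_of_isOpen h.op (by simp)
      exact h1.clm_apply (ma2_fld_contDiff η ζ ξ d).contDiffOn
    · intro p
      exact (ma2_derf hMA1 hη hζ hξ h p).symm
  · intro c
    exact ⟨_, _, ma2_const c⟩
  · rintro f g ⟨O, F, hF⟩ ⟨O', G, hG⟩
    exact ⟨⟨_, _, ma2_add hF hG⟩, ⟨_, _, ma2_mul hF hG⟩⟩
  · rintro φ U hU hφ f ⟨O, F, hF⟩ hf
    exact ⟨_, _, ma2_comp hU hφ hF hf⟩
  · intro η ζ ξ d hη hζ hξ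
    refine ⟨?_, ?_, ?_, ?_⟩
    · intro c
      funext p
      rw [ma2_derf hMA1 hη hζ hξ (ma2_const c) p]
      simp
    · rintro f g ⟨O, F, hF⟩ ⟨O', G, hG⟩
      constructor
      · funext p
        rw [ma2_derf hMA1 hη hζ hξ (ma2_add hF hG) p]
        show _ = derf η ζ ξ d f p + derf η ζ ξ d g p
        rw [ma2_derf hMA1 hη hζ hξ hF p, ma2_derf hMA1 hη hζ hξ hG p,
          fderiv_add (ma2_diffAt hF p) (ma2_diffAt hG p)]
        rfl
      · funext p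
        rw [ma2_derf hMA1 hη hζ hξ (ma2_mul hF hG) p]
        show _ = f p * derf η ζ ξ d g p + g p * derf η ζ ξ d f p
        rw [ma2_derf hMA1 hη hζ hξ hF p, ma2_derf hMA1 hη hζ hξ hG p,
          fderiv_mul (ma2_diffAt hF p) (ma2_diffAt hG p), hF.eq, hG.eq]
        rfl
    · rintro c f ⟨O, F, hF⟩
      funext p
      rw [ma2_derf hMA1 hη hζ hξ (ma2_smul c hF) p]
      show _ = c • derf η ζ ξ d f p
      rw [ma2_derf hMA1 hη hζ hξ hF p, fderiv_const_smul (ma2_diffAt hF p)]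
      rfl
    · rintro φ U hU hφ f ⟨O, F, hF⟩ hf p
      rw [ma2_derf hMA1 hη hζ hξ (ma2_comp hU hφ hF hf) p, ma2_derf hMA1 hη hζ hξ hF p]
      have h1 : DifferentiableAt ℝ φ (F (emW p)) := by
        rw [hF.eq]
        exact (hφ.contDiffAt (hU.mem_nhds (hf p))).differentiableAt (by simp)
      have h2 : HasFDerivAt (fun q => φ (F q)) (deriv φ (F (emW p)) • fderiv ℝ F (emW p))
          (emW p) := h1.hasDerivAt.comp_hasFDerivAt (emW p) (ma2_diffAt hF p).hasFDerivAt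
      rw [h2.fderiv, hF.eq]
      rfl
  · intro η ζ ξ η' ζ' ξ' d d' c f _
    funext p
    show fderiv ℝ (exf f) (emW p) _ = fderiv ℝ (exf f) (emW p) _ + c • fderiv ℝ (exf f) (emW p) _
    rw [ma2_fld_lin, map_add, map_smul]

end Pool.Agent.Helper47.RFn
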